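import Pool.Agent.T2H84.ConnMain

/-! # The asymptotic maximum connected set density of cubic graphs and of graphs of minimum degree
at least three is `5/6` for both classes. -/

set_option autoImplicit false
set_option linter.unusedSectionVars false

namespace Pool.Agent.Results.MP_a5cbd6_co.FiveSixths

open Finset Filter

noncomputable section

open scoped Classical

/-- The connected sets of `G`: the vertex sets which induce a connected (so nonempty) subgraph. -/
def connectedSets {n : ℕ} (G : SimpleGraph (Fin n)) : Finset (Finset (Fin n)) :=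
  univ.filter (fun S => (G.induce (S : Set (Fin n))).Connected)

/-- `A(G)`: the average number of vertices of a connected set. -/
def averageSize {n : ℕ} (G : SimpleGraph (Fin n)) : ℝ :=
  (∑ S ∈ connectedSets G, (S.card : ℝ)) / (connectedSets G).card

/-- `D(G)`: the connected set density. -/
def density {n : ℕ} (G : SimpleGraph (Fin n)) : ℝ := averageSize G / n

/-- The largest connected set density of a graph with `n` vertices in the class `P`. -/
def maxDensity (P : ∀ n : ℕ, SimpleGraph (Fin n) → Prop) (n : ℕ) : ℝ :=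
  sSup {d : ℝ | ∃ G : SimpleGraph (Fin n), P n G ∧ d = density G}

/-- `M(P)`: the asymptotic maximum connected set density of the class `P`, the upper limit being
taken over those `n` for which the class has a graph with `n` vertices. -/
def asymptoticMax (P : ∀ n : ℕ, SimpleGraph (Fin n) → Prop) : ℝ :=
  limsup (maxDensity P) (atTop ⊓ 𝓟 {n : ℕ | ∃ G : SimpleGraph (Fin n), P n G})

/-- Connected cubic graphs. -/
def Cubic (n : ℕ) (G : SimpleGraph (Fin n)) : Prop :=
  G.Connected ∧ ∀ v, (G.neighborSet v).ncard = 3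

/-- Connected graphs of minimum degree at least three. -/
def MinThree (n : ℕ) (G : SimpleGraph (Fin n)) : Prop :=
  G.Connected ∧ ∀ v, 3 ≤ (G.neighborSet v).ncard

theorem connectedSets_eq {n : ℕ} (G : SimpleGraph (Fin n)) :
    connectedSets G = T2H84.conns G := by
  unfold connectedSets T2H84.conns
  ext C
  simp only [mem_filter, mem_univ, true_and]
  exact (T2H84.conn_iff G C).symm

theorem induce_univ_connected {n : ℕ} (G : SimpleGraph (Fin n)) :
    (G.induce ((univ : Finset (Fin n)) : Set (Fin n))).Connected ↔ G.Connected := by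
  rw [show ((univ : Finset (Fin n)) : Set (Fin n)) = Set.univ from coe_univ]
  exact (SimpleGraph.induceUnivIso G).connected_iff

theorem ncard_neighbor {n : ℕ} (G : SimpleGraph (Fin n)) (v : Fin n) :
    (G.neighborSet v).ncard = (univ.filter (G.Adj v)).card := by
  rw [← Set.ncard_coe_finset]
  congr 1
  ext x
  simp

theorem density_le {n : ℕ} (G : SimpleGraph (Fin n)) (h : MinThree n G) : density G ≤ 5 / 6 := by
  have hn : 0 < n := by
    obtain ⟨v⟩ := h.1.nonempty
    exact v.pos
  have hb := T2H84.upper_bound (G := G) (fun v => by rw [← ncard_neighbor]; exact h.2 v)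
  rw [Fintype.card_fin] at hb
  have hb' : (6 : ℝ) * ∑ C ∈ T2H84.conns G, (C.card : ℝ) ≤ 5 * n * (T2H84.conns G).card := by
    exact_mod_cast hb
  have hpos : 0 < (T2H84.conns G).card := by
    rw [card_pos]
    refine ⟨univ, ?_⟩
    rw [← connectedSets_eq]
    unfold connectedSets
    simp only [mem_filter, mem_univ, true_and]
    exact (induce_univ_connected G).2 h.1
  have hpos' : (0 : ℝ) < (T2H84.conns G).card := by exact_mod_cast hpos
  have hn' : (0 : ℝ) < n := by exact_mod_cast hn
  unfold density averageSize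
  rw [connectedSets_eq, div_div, div_le_div_iff₀ (by positivity) (by norm_num)]
  nlinarith

theorem density_nonneg {n : ℕ} (G : SimpleGraph (Fin n)) : 0 ≤ density G := by
  unfold density averageSize
  positivity

theorem exists_dense (m : ℕ) : ∃ G : SimpleGraph (Fin (8 * m + 10)), Cubic (8 * m + 10) G ∧
    (20 * m - 40 : ℝ) / (3 * (8 * m + 10)) ≤ density G := by
  obtain ⟨K, h1, h2, h3⟩ := T2H84.exists_cubic m
  have hc : K.Connected := (induce_univ_connected K).1 ((T2H84.conn_iff K univ).1 h1)
  refine ⟨K, ⟨hc, fun v => ?_⟩, ?_⟩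
  · rw [ncard_neighbor]; exact h2 v
  · have h3' : (20 : ℝ) * m * (T2H84.conns K).card ≤
        3 * ∑ C ∈ T2H84.conns K, (C.card : ℝ) + 40 * (T2H84.conns K).card := by
      exact_mod_cast h3
    have hpos : 0 < (T2H84.conns K).card := by
      rw [card_pos]
      refine ⟨univ, ?_⟩
      rw [← connectedSets_eq]
      unfold connectedSets
      simp only [mem_filter, mem_univ, true_and]
      exact (induce_univ_connected K).2 hc
    have hpos' : (0 : ℝ) < (T2H84.conns K).card := by exact_mod_cast hpos
    unfold density averageSize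
    rw [connectedSets_eq, div_div]
    have hm : (0 : ℝ) ≤ m := Nat.cast_nonneg m
    push_cast
    rw [div_le_div_iff₀ (by positivity) (by positivity)]
    have hmm : (0 : ℝ) < 8 * m + 10 := by positivity
    nlinarith [mul_le_mul_of_nonneg_right h3' hmm.le]

theorem asymptotic (P : ∀ n : ℕ, SimpleGraph (Fin n) → Prop)
    (hup : ∀ n (G : SimpleGraph (Fin n)), P n G → density G ≤ 5 / 6)
    (hlow : ∀ m : ℕ, ∃ G : SimpleGraph (Fin (8 * m + 10)), P (8 * m + 10) G ∧
      (20 * m - 40 : ℝ) / (3 * (8 * m + 10)) ≤ density G) :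
    asymptoticMax P = 5 / 6 := by
  have hfreq : ∀ c : ℝ, c < 5 / 6 →
      ∃ᶠ n in atTop ⊓ 𝓟 {n : ℕ | ∃ G : SimpleGraph (Fin n), P n G}, c ≤ maxDensity P n := by
    intro c hc
    rw [frequently_inf_principal, frequently_atTop]
    intro a
    obtain ⟨m, hm⟩ := exists_nat_gt (max (a : ℝ) (65 / (18 * (5 / 6 - c))))
    have hma : (a : ℝ) < m := lt_of_le_of_lt (le_max_left _ _) hm
    have hmc : 65 / (18 * (5 / 6 - c)) < (m : ℝ) := lt_of_le_of_lt (le_max_right _ _) hm
    have hma' : a < m := by exact_mod_cast hma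
    obtain ⟨G, hG, hd⟩ := hlow m
    refine ⟨8 * m + 10, by omega, ⟨G, hG⟩, ?_⟩
    have h1 : density G ≤ maxDensity P (8 * m + 10) := by
      refine le_csSup ⟨5 / 6, ?_⟩ ⟨G, hG, rfl⟩
      rintro d ⟨G', hG', rfl⟩
      exact hup _ G' hG'
    refine le_trans ?_ (hd.trans h1)
    have hm0 : (0 : ℝ) < m := lt_of_le_of_lt (Nat.cast_nonneg a) hma
    rw [le_div_iff₀ (by positivity)]
    have hc' : 0 < 5 / 6 - c := by linarith
    rw [div_lt_iff₀ (by positivity)] at hmc
    nlinarith
  have hne : (atTop ⊓ 𝓟 {n : ℕ | ∃ G : SimpleGraph (Fin n), P n G}).NeBot := by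
    have h0 := hfreq 0 (by norm_num)
    rw [neBot_iff]
    intro hbot
    rw [hbot] at h0
    simp at h0
  have hub : ∀ᶠ n in atTop ⊓ 𝓟 {n : ℕ | ∃ G : SimpleGraph (Fin n), P n G},
      maxDensity P n ≤ 5 / 6 := by
    rw [eventually_inf_principal]
    refine Eventually.of_forall fun n hn => ?_
    obtain ⟨G, hG⟩ := hn
    refine csSup_le ⟨_, G, hG, rfl⟩ ?_
    rintro d ⟨G', hG', rfl⟩
    exact hup _ G' hG'
  have hlb : ∀ n, 0 ≤ maxDensity P n := by
    intro n
    refine Real.sSup_nonneg ?_
    rintro d ⟨G', _, rfl⟩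
    exact density_nonneg G'
  unfold asymptoticMax
  refine le_antisymm ?_ ?_
  · refine limsup_le_of_le ?_ hub
    exact (isBoundedUnder_of ⟨0, hlb⟩).isCoboundedUnder_le
  · refine le_of_forall_lt fun c hc => ?_
    obtain ⟨c', hc1, hc2⟩ := exists_between hc
    exact lt_of_lt_of_le hc1 (le_limsup_of_frequently_le (hfreq c' hc2) ⟨5 / 6, hub⟩)

/-- Allowing larger degrees does not change the asymptotic maximum connected set density, both
values being `5/6`; moreover every connected graph of minimum degree at least three has connected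
set density at most `5/6`. -/
theorem result : asymptoticMax MinThree = asymptoticMax Cubic ∧ asymptoticMax Cubic = 5 / 6 ∧
    ∀ (n : ℕ) (G : SimpleGraph (Fin n)), MinThree n G → density G ≤ 5 / 6 := by
  have hC : asymptoticMax Cubic = 5 / 6 := by
    refine asymptotic Cubic (fun n G hG => density_le G ⟨hG.1, fun v => ?_⟩) exists_dense
    rw [hG.2 v]
  have hM : asymptoticMax MinThree = 5 / 6 := by
    refine asymptotic MinThree (fun n G hG => density_le G hG) (fun m => ?_)
    obtain ⟨G, hG, hd⟩ := exists_dense m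
    exact ⟨G, ⟨hG.1, fun v => by rw [hG.2 v]⟩, hd⟩
  exact ⟨by rw [hC, hM], hC, fun n G hG => density_le G hG⟩

end

end Pool.Agent.Results.MP_a5cbd6_co.FiveSixths
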